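import Mathlib

set_option autoImplicit false

open Set Filter Topology
open scoped BoundedContinuousFunction Interval

namespace Pool.Agent.Results.MP_981724_an.NoComplexSubspace

/-- The numerical range of a bounded operator on a real normed space. -/
def numRange {X : Type} [NormedAddCommGroup X] [NormedSpace ℝ X] (T : X →L[ℝ] X) : Set ℝ :=
  {c | ∃ (x : X) (f : StrongDual ℝ X), ‖x‖ = 1 ∧ ‖f‖ = 1 ∧ f x = 1 ∧ c = f (T x)}

/-- `X` contains a linear isometric copy of the Euclidean plane. -/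
def ContainsEuclideanPlane (X : Type) [NormedAddCommGroup X] [NormedSpace ℝ X] : Prop :=
  Nonempty (EuclideanSpace ℝ (Fin 2) →ₗᵢ[ℝ] X)

/-- `X` has a nonzero subspace `Z` with a norm-compatible complex structure `J`. -/
def HasComplexSubspace (X : Type) [NormedAddCommGroup X] [NormedSpace ℝ X] : Prop :=
  ∃ (Z : Submodule ℝ X) (J : Z →ₗ[ℝ] Z), Z ≠ ⊥ ∧ (∀ z, J (J z) = -z) ∧
    ∀ (ρ : ℝ) (z : Z), ‖Real.cos ρ • z + Real.sin ρ • J z‖ = ‖z‖

/-- The space of bounded continuous functions `F` on `ℕ × ℝ` tending to zero at infinity and such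
that `F (n + 1, t)` is the derivative of `F (n, t)` with respect to `t`. -/
def XX : Submodule ℝ ((ℕ × ℝ) →ᵇ ℝ) where
  carrier := {F | (∀ n t, HasDerivAt (fun s => F (n, s)) (F (n + 1, t)) t) ∧
    ∀ ε : ℝ, 0 < ε → ∃ R : ℕ, ∀ n t, (R ≤ n ∨ (R : ℝ) ≤ |t|) → |F (n, t)| ≤ ε}
  add_mem' := by
    rintro F G ⟨hF, hF'⟩ ⟨hG, hG'⟩
    refine ⟨fun n t => ?_, fun ε hε => ?_⟩
    · exact (hF n t).add (hG n t)
    · obtain ⟨R₁, h₁⟩ := hF' (ε / 2) (by positivity)
      obtain ⟨R₂, h₂⟩ := hG' (ε / 2) (by positivity)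
      refine ⟨max R₁ R₂, fun n t h => ?_⟩
      have e1 : |F (n, t)| ≤ ε / 2 := h₁ n t (by
        rcases h with h | h
        · exact Or.inl (le_trans (le_max_left _ _) h)
        · refine Or.inr (le_trans ?_ h)
          exact_mod_cast le_max_left R₁ R₂)
      have e2 : |G (n, t)| ≤ ε / 2 := h₂ n t (by
        rcases h with h | h
        · exact Or.inl (le_trans (le_max_right _ _) h)
        · refine Or.inr (le_trans ?_ h)
          exact_mod_cast le_max_right R₁ R₂)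
      have e3 : (F + G) (n, t) = F (n, t) + G (n, t) := rfl
      rw [e3]
      exact (abs_add_le _ _).trans (by linarith)
  zero_mem' := by
    refine ⟨fun n t => ?_, fun ε hε => ⟨0, fun n t _ => ?_⟩⟩
    · simpa using hasDerivAt_const t (0 : ℝ)
    · simpa using hε.le
  smul_mem' := by
    rintro c F ⟨hF, hF'⟩
    refine ⟨fun n t => ?_, fun ε hε => ?_⟩
    · simpa using (hF n t).const_mul c
    · obtain ⟨R, h⟩ := hF' (ε / (|c| + 1)) (by positivity)
      refine ⟨R, fun n t hnt => ?_⟩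
      have e1 := h n t hnt
      have e3 : (c • F) (n, t) = c * F (n, t) := rfl
      rw [e3, abs_mul]
      have : |c| * |F (n, t)| ≤ (|c| + 1) * (ε / (|c| + 1)) := by
        apply mul_le_mul _ e1 (abs_nonneg _) (by positivity)
        linarith
      rwa [mul_div_cancel₀] at this
      positivity

lemma isClosed_XX : IsClosed (XX : Set ((ℕ × ℝ) →ᵇ ℝ)) := by
  apply IsSeqClosed.isClosed
  intro F G hF hG
  have hunif : TendstoUniformly (fun k p => F k p) G atTop :=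
    BoundedContinuousFunction.tendsto_iff_tendstoUniformly.1 hG
  refine ⟨fun n t => ?_, fun ε hε => ?_⟩
  · refine hasDerivAt_of_tendstoUniformly (l := atTop) (f := fun k s => F k (n, s))
      (f' := fun k s => F k (n + 1, s)) (g := fun s => G (n, s)) (g' := fun s => G (n + 1, s))
      ?_ ?_ ?_ t
    · exact hunif.comp (fun s : ℝ => (n + 1, s))
    · exact Eventually.of_forall fun k s => (hF k).1 n s
    · exact fun s => hunif.tendsto_at (n, s)
  · have h1 := Metric.tendstoUniformly_iff.1 hunif (ε / 2) (by positivity)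
    obtain ⟨k, hk⟩ := h1.exists
    obtain ⟨R, hR⟩ := (hF k).2 (ε / 2) (by positivity)
    refine ⟨R, fun n t hnt => ?_⟩
    have e1 := hR n t hnt
    have e2 := hk (n, t)
    rw [Real.dist_eq] at e2
    calc |G (n, t)| = |(G (n, t) - F k (n, t)) + F k (n, t)| := by ring_nf
      _ ≤ |G (n, t) - F k (n, t)| + |F k (n, t)| := abs_add_le _ _
      _ ≤ ε := by linarith

instance : CompleteSpace XX := isClosed_XX.completeSpace_coe


lemma hasDerivAt_XX (F : XX) (n : ℕ) (t : ℝ) :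
    HasDerivAt (fun s => (F : (ℕ × ℝ) →ᵇ ℝ) (n, s)) ((F : (ℕ × ℝ) →ᵇ ℝ) (n + 1, t)) t := F.2.1 n t

lemma abs_le_XX (F : XX) (p : ℕ × ℝ) : |(F : (ℕ × ℝ) →ᵇ ℝ) p| ≤ ‖F‖ :=
  (F : (ℕ × ℝ) →ᵇ ℝ).norm_coe_le_norm p

/-- differentiation with respect to the real variable, as a linear map -/
noncomputable def D₀ : XX →ₗ[ℝ] XX where
  toFun F := ⟨(F : (ℕ × ℝ) →ᵇ ℝ).compContinuous ⟨fun p => (p.1 + 1, p.2), by fun_prop⟩, by
    refine ⟨fun n t => F.2.1 (n + 1) t, fun ε hε => ?_⟩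
    obtain ⟨R, hR⟩ := F.2.2 ε hε
    exact ⟨R, fun n t h => hR (n + 1) t (h.imp (fun h => h.trans (Nat.le_succ n)) id)⟩⟩
  map_add' F G := rfl
  map_smul' c F := rfl

lemma norm_D₀_le (F : XX) : ‖D₀ F‖ ≤ 1 * ‖F‖ := by
  rw [one_mul]
  refine (BoundedContinuousFunction.norm_le (norm_nonneg F)).2 fun p => ?_
  exact abs_le_XX F (p.1 + 1, p.2)

/-- differentiation with respect to the real variable, as a bounded linear operator -/
noncomputable def D : XX →L[ℝ] XX :=
  LinearMap.mkContinuous (E := ↥XX) (F := ↥XX) D₀ 1 norm_D₀_le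

lemma D_apply (F : XX) (n : ℕ) (t : ℝ) :
    ((D F : XX) : (ℕ × ℝ) →ᵇ ℝ) (n, t) = (F : (ℕ × ℝ) →ᵇ ℝ) (n + 1, t) := rfl

/-- translation -/
noncomputable def tr (s : ℝ) (F : XX) : XX :=
  ⟨(F : (ℕ × ℝ) →ᵇ ℝ).compContinuous ⟨fun p => (p.1, p.2 + s), by fun_prop⟩, by
    refine ⟨fun n t => ?_, fun ε hε => ?_⟩
    · have h1 := (F.2.1 n (t + s)).comp_add_const t s
      exact h1
    · obtain ⟨R, hR⟩ := F.2.2 ε hε
      obtain ⟨R', hR'⟩ := exists_nat_ge ((R : ℝ) + |s|)
      refine ⟨max R R', fun n t h => ?_⟩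
      apply hR n (t + s)
      rcases h with h | h
      · exact Or.inl (le_trans (le_max_left _ _) h)
      · right
        have h2 : (R' : ℝ) ≤ |t| := le_trans (by exact_mod_cast le_max_right R R') h
        have h3 : |t| ≤ |t + s| + |s| := by
          have := abs_add_le (t + s) (-s)
          rw [abs_neg] at this
          simpa using this
        linarith⟩

lemma tr_apply (s : ℝ) (F : XX) (n : ℕ) (t : ℝ) :
    ((tr s F : XX) : (ℕ × ℝ) →ᵇ ℝ) (n, t) = (F : (ℕ × ℝ) →ᵇ ℝ) (n, t + s) := rfl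

lemma norm_tr_le (s : ℝ) (F : XX) : ‖tr s F‖ ≤ ‖F‖ := by
  refine (BoundedContinuousFunction.norm_le (norm_nonneg F)).2 fun p => ?_
  exact abs_le_XX F (p.1, p.2 + s)

lemma taylor_bound (F : XX) (n : ℕ) (t s : ℝ) :
    |(F : (ℕ × ℝ) →ᵇ ℝ) (n, t + s) - (F : (ℕ × ℝ) →ᵇ ℝ) (n, t) -
      s * (F : (ℕ × ℝ) →ᵇ ℝ) (n + 1, t)| ≤ ‖F‖ * |s| ^ 2 := by
  have hlip : ∀ u v : ℝ, |(F : (ℕ × ℝ) →ᵇ ℝ) (n + 1, v) - (F : (ℕ × ℝ) →ᵇ ℝ) (n + 1, u)| ≤
      ‖F‖ * |v - u| := by
    intro u v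
    exact Convex.norm_image_sub_le_of_norm_hasDerivWithin_le
      (f := fun s => (F : (ℕ × ℝ) →ᵇ ℝ) (n + 1, s)) (s := univ)
      (fun x _ => (hasDerivAt_XX F (n + 1) x).hasDerivWithinAt)
      (fun x _ => abs_le_XX F (n + 1 + 1, x)) convex_univ (mem_univ u) (mem_univ v)
  set G : ℝ → ℝ := fun v => (F : (ℕ × ℝ) →ᵇ ℝ) (n, v) - (v - t) * (F : (ℕ × ℝ) →ᵇ ℝ) (n + 1, t)
    with hG
  have hGd : ∀ v, HasDerivAt G ((F : (ℕ × ℝ) →ᵇ ℝ) (n + 1, v) - (F : (ℕ × ℝ) →ᵇ ℝ) (n + 1, t)) v := by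
    intro v
    have h1 := (hasDerivAt_XX F n v).sub
      (((hasDerivAt_id v).sub_const t).mul_const ((F : (ℕ × ℝ) →ᵇ ℝ) (n + 1, t)))
    rw [one_mul] at h1
    exact h1
  have hb : ∀ x ∈ uIcc t (t + s), ‖(F : (ℕ × ℝ) →ᵇ ℝ) (n + 1, x) - (F : (ℕ × ℝ) →ᵇ ℝ) (n + 1, t)‖
      ≤ ‖F‖ * |s| := by
    intro x hx
    refine (hlip t x).trans ?_
    have h5 : |x - t| ≤ |s| := by
      have := abs_sub_left_of_mem_uIcc hx
      simpa using this
    have h6 : 0 ≤ ‖F‖ := norm_nonneg F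
    exact mul_le_mul_of_nonneg_left h5 h6
  have h2 := Convex.norm_image_sub_le_of_norm_hasDerivWithin_le
      (f := G) (s := uIcc t (t + s)) (C := ‖F‖ * |s|)
      (fun x _ => (hGd x).hasDerivWithinAt) hb (convex_uIcc _ _) (left_mem_uIcc) (right_mem_uIcc)
  have h3 : G (t + s) - G t = (F : (ℕ × ℝ) →ᵇ ℝ) (n, t + s) - (F : (ℕ × ℝ) →ᵇ ℝ) (n, t) -
      s * (F : (ℕ × ℝ) →ᵇ ℝ) (n + 1, t) := by
    simp only [hG]; ring
  rw [h3] at h2
  refine h2.trans (le_of_eq ?_)
  have : t + s - t = s := by ring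
  rw [this, Real.norm_eq_abs]
  ring

lemma norm_tr_sub_le (F : XX) (s : ℝ) : ‖tr s F - F - s • D F‖ ≤ ‖F‖ * |s| ^ 2 := by
  have h0 : 0 ≤ ‖F‖ * |s| ^ 2 := mul_nonneg (norm_nonneg F) (by positivity)
  refine (BoundedContinuousFunction.norm_le h0).2 fun p => ?_
  obtain ⟨n, t⟩ := p
  have h1 : ((tr s F - F - s • D F : XX) : (ℕ × ℝ) →ᵇ ℝ) (n, t) =
      (F : (ℕ × ℝ) →ᵇ ℝ) (n, t + s) - (F : (ℕ × ℝ) →ᵇ ℝ) (n, t) -
      s * (F : (ℕ × ℝ) →ᵇ ℝ) (n + 1, t) := rfl
  have h2 := taylor_bound F n t s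
  rw [← h1] at h2
  exact h2

lemma numRange_D_subset : numRange (X := XX) D ⊆ {0} := by
  rintro c ⟨x, f, hx, hf, hfx, rfl⟩
  -- `f (tr s x) ≤ 1` for all `s`
  have key : ∀ s : ℝ, s * f (D x) ≤ s ^ 2 := by
    intro s
    have h1 : f (tr s x) ≤ 1 := by
      calc f (tr s x) ≤ ‖f (tr s x)‖ := le_abs_self _
        _ ≤ ‖f‖ * ‖tr s x‖ := f.le_opNorm _
        _ ≤ 1 * 1 := by
          rw [hf]
          exact mul_le_mul_of_nonneg_left ((norm_tr_le s x).trans hx.le) zero_le_one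
        _ = 1 := one_mul 1
    have h2 : |f (tr s x - x - s • D x)| ≤ s ^ 2 := by
      calc |f (tr s x - x - s • D x)| ≤ ‖f‖ * ‖tr s x - x - s • D x‖ := f.le_opNorm _
        _ ≤ 1 * (‖x‖ * |s| ^ 2) := by
          rw [hf]; exact mul_le_mul_of_nonneg_left (norm_tr_sub_le x s) zero_le_one
        _ = s ^ 2 := by rw [hx, sq_abs]; ring
    have h4 : f (tr s x - x - s • D x) = f (tr s x) - f x - s * f (D x) := by
      rw [f.map_sub, f.map_sub, f.map_smul, smul_eq_mul]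
    rw [h4, hfx] at h2
    have h3 := (abs_le.1 h2).1
    linarith
  rw [mem_singleton_iff]
  by_contra hne
  rcases lt_or_gt_of_ne hne with h | h
  · have h1 := key (f (D x) / 2)
    nlinarith
  · have h1 := key (f (D x) / 2)
    nlinarith

/-- a nonzero element attains its norm at a point, at which we have control -/
lemma exists_attain (F : XX) (hF : ‖F‖ = 1) : ∃ p : ℕ × ℝ, |(F : (ℕ × ℝ) →ᵇ ℝ) p| = 1 := by
  obtain ⟨R, hR⟩ := F.2.2 (1 / 2) (by norm_num)
  set K : Set (ℕ × ℝ) := (Iic R) ×ˢ (Icc (-(R : ℝ)) R) with hK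
  have hKc : IsCompact K := (Set.finite_Iic R).isCompact.prod isCompact_Icc
  have hKn : K.Nonempty := ⟨(0, 0), by simp [hK]⟩
  obtain ⟨p, hp, hmax⟩ := hKc.exists_isMaxOn hKn
    (f := fun p => |(F : (ℕ × ℝ) →ᵇ ℝ) p|) (by fun_prop)
  refine ⟨p, le_antisymm ((abs_le_XX F p).trans hF.le) ?_⟩
  by_contra hlt
  push Not at hlt
  have h1 : ‖F‖ ≤ max (1 / 2) |(F : (ℕ × ℝ) →ᵇ ℝ) p| := by
    refine (BoundedContinuousFunction.norm_le (le_max_of_le_left (by norm_num))).2 fun q => ?_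
    by_cases hq : q ∈ K
    · exact le_max_of_le_right (hmax hq)
    · refine le_max_of_le_left (hR q.1 q.2 ?_)
      by_contra hcon
      push Not at hcon
      apply hq
      refine ⟨hcon.1.le, ?_⟩
      have := abs_lt.1 hcon.2
      exact ⟨this.1.le, this.2.le⟩
  rw [hF] at h1
  have : max (1 / 2) |(F : (ℕ × ℝ) →ᵇ ℝ) p| < 1 := max_lt (by norm_num) hlt
  linarith


lemma hasDerivAt_poly (K : ℕ) (c : ℕ → ℝ) (u : ℝ) :
    HasDerivAt (fun u : ℝ => ∑ k ∈ Finset.range (K + 1), u ^ k * (c k / (k.factorial : ℝ)))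
      (∑ k ∈ Finset.range K, u ^ k * (c (k + 1) / (k.factorial : ℝ))) u := by
  induction K with
  | zero =>
    simp only [zero_add, Finset.range_one, Finset.sum_singleton, pow_zero, one_mul,
      Finset.range_zero, Finset.sum_empty]
    exact hasDerivAt_const _ _
  | succ K ih =>
    have h1 : HasDerivAt (fun u : ℝ => u ^ (K + 1) * (c (K + 1) / ((K + 1).factorial : ℝ)))
        (u ^ K * (c (K + 1) / (K.factorial : ℝ))) u := by
      have h2 := (hasDerivAt_pow (K + 1) u).mul_const (c (K + 1) / ((K + 1).factorial : ℝ))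
      refine h2.congr_deriv ?_
      have h3 : (K.factorial : ℝ) ≠ 0 := by positivity
      have h4 : (((K + 1 : ℕ)) : ℝ) ≠ 0 := by positivity
      rw [Nat.factorial_succ]
      push_cast at h4 ⊢
      field_simp
    have h5 := ih.add h1
    have h6 : (fun u : ℝ => ∑ k ∈ Finset.range (K + 1 + 1), u ^ k * (c k / (k.factorial : ℝ))) =
        (fun u : ℝ => ∑ k ∈ Finset.range (K + 1), u ^ k * (c k / (k.factorial : ℝ))) +
        (fun u : ℝ => u ^ (K + 1) * (c (K + 1) / ((K + 1).factorial : ℝ))) := by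
      funext v
      rw [Finset.sum_range_succ]
      rfl
    rw [h6, Finset.sum_range_succ]
    exact h5

lemma remainder (F : XX) (t : ℝ) (K : ℕ) : ∀ (n : ℕ) (s : ℝ),
    |(F : (ℕ × ℝ) →ᵇ ℝ) (n, t + s) -
      ∑ k ∈ Finset.range K, s ^ k * ((F : (ℕ × ℝ) →ᵇ ℝ) (n + k, t) / (k.factorial : ℝ))| ≤
      ‖F‖ * |s| ^ K := by
  induction K with
  | zero =>
    intro n s
    simpa using abs_le_XX F (n, t + s)
  | succ K ih =>
    intro n s
    set G : ℝ → ℝ := fun u => (F : (ℕ × ℝ) →ᵇ ℝ) (n, t + u) -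
      ∑ k ∈ Finset.range (K + 1), u ^ k * ((F : (ℕ × ℝ) →ᵇ ℝ) (n + k, t) / (k.factorial : ℝ)) with hG
    have hGd : ∀ u, HasDerivAt G ((F : (ℕ × ℝ) →ᵇ ℝ) (n + 1, t + u) -
        ∑ k ∈ Finset.range K, u ^ k * ((F : (ℕ × ℝ) →ᵇ ℝ) (n + 1 + k, t) / (k.factorial : ℝ))) u := by
      intro u
      have h1 : HasDerivAt (fun u => (F : (ℕ × ℝ) →ᵇ ℝ) (n, t + u))
          ((F : (ℕ × ℝ) →ᵇ ℝ) (n + 1, t + u)) u := (hasDerivAt_XX F n (t + u)).comp_const_add t u
      have h2 := hasDerivAt_poly K (fun k => (F : (ℕ × ℝ) →ᵇ ℝ) (n + k, t)) u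
      have h3 := h1.sub h2
      refine h3.congr_deriv ?_
      congr 1
      refine Finset.sum_congr rfl fun k _ => ?_
      have h4 : n + (k + 1) = n + 1 + k := by ring
      rw [h4]
    have hb : ∀ u ∈ uIcc 0 s, ‖(F : (ℕ × ℝ) →ᵇ ℝ) (n + 1, t + u) -
        ∑ k ∈ Finset.range K, u ^ k * ((F : (ℕ × ℝ) →ᵇ ℝ) (n + 1 + k, t) / (k.factorial : ℝ))‖
        ≤ ‖F‖ * |s| ^ K := by
      intro u hu
      refine (ih (n + 1) u).trans ?_
      have h5 : |u| ≤ |s| := by
        have := abs_sub_left_of_mem_uIcc hu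
        simpa using this
      have h6 : 0 ≤ ‖F‖ := norm_nonneg F
      exact mul_le_mul_of_nonneg_left (pow_le_pow_left₀ (abs_nonneg _) h5 K) h6
    have h2 := Convex.norm_image_sub_le_of_norm_hasDerivWithin_le
      (f := G) (s := uIcc 0 s) (C := ‖F‖ * |s| ^ K)
      (fun x _ => (hGd x).hasDerivWithinAt) hb (convex_uIcc _ _) (left_mem_uIcc) (right_mem_uIcc)
    have h3 : G 0 = 0 := by
      simp only [hG, add_zero]
      rw [Finset.sum_range_succ']
      simp
    rw [h3, sub_zero, sub_zero, Real.norm_eq_abs, Real.norm_eq_abs] at h2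
    refine h2.trans (le_of_eq ?_)
    ring

lemma analyticAt_XX (F : XX) (n : ℕ) (t : ℝ) :
    AnalyticAt ℝ (fun s => (F : (ℕ × ℝ) →ᵇ ℝ) (n, s)) t := by
  refine ⟨FormalMultilinearSeries.ofScalars ℝ
    (fun k => (F : (ℕ × ℝ) →ᵇ ℝ) (n + k, t) / (k.factorial : ℝ)), ?_⟩
  rw [hasFPowerSeriesAt_iff]
  have h0 : ∀ᶠ z : ℝ in 𝓝 0, |z| < 1 := by
    have : Tendsto (fun z : ℝ => |z|) (𝓝 0) (𝓝 |0|) := continuous_abs.tendsto 0
    rw [abs_zero] at this
    exact this.eventually (gt_mem_nhds one_pos)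
  filter_upwards [h0] with z hz
  have hsum : Summable (fun k => z ^ k • (FormalMultilinearSeries.ofScalars ℝ
      (fun k => (F : (ℕ × ℝ) →ᵇ ℝ) (n + k, t) / (k.factorial : ℝ))).coeff k) := by
    refine Summable.of_norm_bounded (g := fun k => ‖F‖ * |z| ^ k)
      ((summable_geometric_of_lt_one (abs_nonneg z) hz).mul_left _) fun k => ?_
    rw [FormalMultilinearSeries.coeff_ofScalars, smul_eq_mul, norm_mul, norm_pow,
      Real.norm_eq_abs, mul_comm]
    apply mul_le_mul_of_nonneg_right _ (by positivity)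
    rw [norm_div, Real.norm_eq_abs]
    have h6 : 0 ≤ ‖F‖ := norm_nonneg F
    have h7 : (1 : ℝ) ≤ ‖(k.factorial : ℝ)‖ := by
      rw [Real.norm_natCast]
      exact_mod_cast Nat.factorial_pos k
    exact (div_le_self (abs_nonneg _) h7).trans (abs_le_XX F _)
  refine (hsum.hasSum_iff_tendsto_nat).2 ?_
  rw [tendsto_iff_norm_sub_tendsto_zero]
  refine squeeze_zero (g := fun K => ‖F‖ * |z| ^ K) (fun _ => norm_nonneg _) (fun K => ?_) ?_
  · have h1 := remainder F t K n z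
    rw [← Real.norm_eq_abs, norm_sub_rev] at h1
    simpa only [FormalMultilinearSeries.coeff_ofScalars, smul_eq_mul] using h1
  · have := (tendsto_pow_atTop_nhds_zero_of_lt_one (abs_nonneg z) hz).const_mul ‖F‖
    simpa using this

/-- The key fact: no two elements of the space span a Euclidean plane isometrically. -/
lemma no_plane (f g : XX) (h : ∀ a b : ℝ, ‖a • f + b • g‖ = √(a ^ 2 + b ^ 2)) : False := by
  set u : ℕ × ℝ → ℝ := fun p => (f : (ℕ × ℝ) →ᵇ ℝ) p with hu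
  set v : ℕ × ℝ → ℝ := fun p => (g : (ℕ × ℝ) →ᵇ ℝ) p with hv
  have hab : ∀ a b p, |a * u p + b * v p| ≤ √(a ^ 2 + b ^ 2) := by
    intro a b p
    rw [← h a b]
    exact abs_le_XX (a • f + b • g) p
  have hle : ∀ p, u p ^ 2 + v p ^ 2 ≤ 1 := by
    intro p
    have h1 := hab (u p) (v p) p
    have h2 : u p * u p + v p * v p = u p ^ 2 + v p ^ 2 := by ring
    rw [h2, abs_of_nonneg (by positivity)] at h1
    set w := u p ^ 2 + v p ^ 2 with hw
    have hw0 : 0 ≤ w := by positivity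
    by_contra hcon
    push Not at hcon
    have h3 : √w < w := by
      rw [Real.sqrt_lt' (by linarith)]
      nlinarith
    linarith
  -- zeros of `u ^ 2 + v ^ 2 - 1`
  obtain ⟨R₁, hR₁⟩ := f.2.2 (1 / 2) (by norm_num)
  obtain ⟨R₂, hR₂⟩ := g.2.2 (1 / 2) (by norm_num)
  set R := max R₁ R₂ with hR
  have hfar : ∀ n t, (R ≤ n ∨ (R : ℝ) ≤ |t|) → u (n, t) ^ 2 + v (n, t) ^ 2 ≠ 1 := by
    intro n t hnt
    have e1 : |u (n, t)| ≤ 1 / 2 := hR₁ n t (by
      rcases hnt with h | h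
      · exact Or.inl (le_trans (le_max_left _ _) h)
      · refine Or.inr (le_trans ?_ h)
        exact_mod_cast le_max_left R₁ R₂)
    have e2 : |v (n, t)| ≤ 1 / 2 := hR₂ n t (by
      rcases hnt with h | h
      · exact Or.inl (le_trans (le_max_right _ _) h)
      · refine Or.inr (le_trans ?_ h)
        exact_mod_cast le_max_right R₁ R₂)
    have e3 := abs_le.1 e1
    have e4 := abs_le.1 e2
    nlinarith
  have hfin : ∀ n, {t : ℝ | u (n, t) ^ 2 + v (n, t) ^ 2 = 1}.Finite := by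
    intro n
    by_contra hinf
    have hinf : {t : ℝ | u (n, t) ^ 2 + v (n, t) ^ 2 = 1}.Infinite := hinf
    have hsub : {t : ℝ | u (n, t) ^ 2 + v (n, t) ^ 2 = 1} ⊆ Icc (-(R : ℝ)) R := by
      intro t ht
      by_contra hcon
      refine hfar n t (Or.inr ?_) ht
      by_contra hlt
      push Not at hlt
      exact hcon ⟨(abs_lt.1 hlt).1.le, (abs_lt.1 hlt).2.le⟩
    obtain ⟨x, -, hx⟩ := hinf.exists_accPt_of_subset_isCompact isCompact_Icc hsub
    have han : AnalyticOnNhd ℝ (fun t => u (n, t) ^ 2 + v (n, t) ^ 2 - 1) univ := fun t _ =>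
      (((analyticAt_XX f n t).pow 2).add ((analyticAt_XX g n t).pow 2)).sub analyticAt_const
    have hfreq : ∃ᶠ t in 𝓝[≠] x, u (n, t) ^ 2 + v (n, t) ^ 2 - 1 = 0 := by
      have h1 := accPt_iff_frequently.1 hx
      rw [frequently_nhdsWithin_iff]
      refine h1.mono fun t ht => ⟨?_, ht.1⟩
      have h9 : u (n, t) ^ 2 + v (n, t) ^ 2 = 1 := ht.2
      linarith
    have h2 := han.eqOn_zero_of_preconnected_of_frequently_eq_zero isPreconnected_univ
      (mem_univ x) hfreq (mem_univ (R : ℝ))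
    refine hfar n R (Or.inr (le_abs_self _)) ?_
    simp only [Pi.zero_apply] at h2
    linarith
  set A : Set (ℕ × ℝ) := {p | u p ^ 2 + v p ^ 2 = 1} with hA
  have hAfin : A.Finite := by
    have h1 : A ⊆ ⋃ n ∈ Finset.range R, (fun t : ℝ => (n, t)) ''
        {t : ℝ | u (n, t) ^ 2 + v (n, t) ^ 2 = 1} := by
      rintro ⟨n, t⟩ hp
      have hn : n < R := by
        by_contra hcon
        push Not at hcon
        exact hfar n t (Or.inl hcon) hp
      refine mem_iUnion₂.2 ⟨n, Finset.mem_range.2 hn, ⟨t, hp, rfl⟩⟩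
    refine Set.Finite.subset ?_ h1
    exact Set.Finite.biUnion (Finset.finite_toSet _) fun n _ => (hfin n).image _
  -- for each angle there is a point
  have hpt : ∀ θ : ℝ, ∃ p ∈ A, ∃ c : ℝ, (c = 1 ∨ c = -1) ∧ u p = c * Real.cos θ ∧
      v p = c * Real.sin θ := by
    intro θ
    have h1 : ‖Real.cos θ • f + Real.sin θ • g‖ = 1 := by
      rw [h, Real.cos_sq_add_sin_sq, Real.sqrt_one]
    obtain ⟨p, hp⟩ := exists_attain _ h1
    have hp' : |Real.cos θ * u p + Real.sin θ * v p| = 1 := hp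
    have hcs := Real.cos_sq_add_sin_sq θ
    have key : ∀ c : ℝ, (c = 1 ∨ c = -1) → c * (Real.cos θ * u p + Real.sin θ * v p) = 1 →
        u p = c * Real.cos θ ∧ v p = c * Real.sin θ := by
      intro c hc hc1
      have hc2 : c ^ 2 = 1 := by rcases hc with rfl | rfl <;> norm_num
      have h3 : (u p - c * Real.cos θ) ^ 2 + (v p - c * Real.sin θ) ^ 2 ≤ 0 := by
        have h4 := hle p
        have h5 : (u p - c * Real.cos θ) ^ 2 + (v p - c * Real.sin θ) ^ 2 =
            (u p ^ 2 + v p ^ 2) - 2 * (c * (Real.cos θ * u p + Real.sin θ * v p)) +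
              c ^ 2 * (Real.cos θ ^ 2 + Real.sin θ ^ 2) := by ring
        rw [h5, hc1, hc2, hcs]
        linarith
      have h6 : (u p - c * Real.cos θ) ^ 2 = 0 := by nlinarith [sq_nonneg (u p - c * Real.cos θ), sq_nonneg (v p - c * Real.sin θ)]
      have h7 : (v p - c * Real.sin θ) ^ 2 = 0 := by nlinarith [sq_nonneg (u p - c * Real.cos θ), sq_nonneg (v p - c * Real.sin θ)]
      exact ⟨by linarith [pow_eq_zero_iff (two_ne_zero) |>.1 h6], by linarith [pow_eq_zero_iff (two_ne_zero) |>.1 h7]⟩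
    have hex : ∃ c : ℝ, (c = 1 ∨ c = -1) ∧ u p = c * Real.cos θ ∧ v p = c * Real.sin θ := by
      rcases (abs_eq zero_le_one).1 hp' with h3 | h3
      · exact ⟨1, Or.inl rfl, key 1 (Or.inl rfl) (by linarith)⟩
      · exact ⟨-1, Or.inr rfl, key (-1) (Or.inr rfl) (by linarith)⟩
    obtain ⟨c, hc, h4, h5⟩ := hex
    refine ⟨p, ?_, c, hc, h4, h5⟩
    have hc2 : c ^ 2 = 1 := by rcases hc with rfl | rfl <;> norm_num
    show u p ^ 2 + v p ^ 2 = 1
    rw [h4, h5]
    calc (c * Real.cos θ) ^ 2 + (c * Real.sin θ) ^ 2 = c ^ 2 * (Real.cos θ ^ 2 + Real.sin θ ^ 2) := by ring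
      _ = 1 := by rw [hc2, hcs, one_mul]
  choose q hqA c hc hqc hqs using hpt
  -- injectivity on `(0, π)`
  have hinj : InjOn q (Ioo 0 Real.pi) := by
    intro θ hθ φ hφ hq
    have h1 : c θ * Real.cos θ = c φ * Real.cos φ := by rw [← hqc, ← hqc, hq]
    have h2 : c θ * Real.sin θ = c φ * Real.sin φ := by rw [← hqs, ← hqs, hq]
    have h3 := Real.sin_pos_of_mem_Ioo hθ
    have h4 := Real.sin_pos_of_mem_Ioo hφ
    have h5 : c θ = c φ := by
      rcases hc θ with h | h <;> rcases hc φ with h' | h' <;> rw [h, h'] at h2 ⊢ <;> nlinarith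
    have h6 : Real.cos θ = Real.cos φ := by
      rw [h5] at h1
      rcases hc φ with h | h <;> rw [h] at h1 <;> linarith
    exact Real.injOn_cos ⟨hθ.1.le, hθ.2.le⟩ ⟨hφ.1.le, hφ.2.le⟩ h6
  have hinf : (Ioo 0 Real.pi).Infinite := Ioo_infinite Real.pi_pos
  exact hinf ((hAfin.subset (image_subset_iff.2 fun θ _ => hqA θ : q '' Ioo 0 Real.pi ⊆ A)).of_finite_image hinj)


/-! ### A nonzero element -/

/-- the integrals `∫₀^{1/2} (iξ)ⁿ e^{iξt} dξ` -/
noncomputable def Phi (n : ℕ) (t : ℝ) : ℂ :=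
  ∫ ξ in (0:ℝ)..(1 / 2), (Complex.I * ξ) ^ n * Complex.exp (Complex.I * ξ * t)

lemma norm_exp_aux (ξ t : ℝ) : ‖Complex.exp (Complex.I * ξ * t)‖ = 1 := by
  have : Complex.I * ξ * t = ((ξ * t : ℝ) : ℂ) * Complex.I := by push_cast; ring
  rw [this, Complex.norm_exp_ofReal_mul_I]

lemma norm_integrand (n : ℕ) (ξ t : ℝ) :
    ‖(Complex.I * ξ) ^ n * Complex.exp (Complex.I * ξ * t)‖ = |ξ| ^ n := by
  rw [norm_mul, norm_exp_aux, mul_one, norm_pow, norm_mul, Complex.norm_I, one_mul,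
    Complex.norm_real, Real.norm_eq_abs]

lemma norm_Phi_le (n : ℕ) (t : ℝ) : ‖Phi n t‖ ≤ (1 / 2) ^ (n + 1) := by
  have h1 : ∀ ξ ∈ Ι (0:ℝ) (1 / 2), ‖(Complex.I * ξ) ^ n * Complex.exp (Complex.I * ξ * t)‖ ≤
      (1 / 2) ^ n := by
    intro ξ hξ
    rw [uIoc_of_le (by norm_num)] at hξ
    rw [norm_integrand, abs_of_pos hξ.1]
    exact pow_le_pow_left₀ hξ.1.le hξ.2 n
  have h2 := intervalIntegral.norm_integral_le_of_norm_le_const h1
  refine h2.trans (le_of_eq ?_)
  rw [sub_zero, abs_of_pos (by norm_num : (0:ℝ) < 1 / 2), pow_succ]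

lemma continuous_integrand (n : ℕ) (t : ℝ) :
    Continuous fun ξ : ℝ => (Complex.I * ξ) ^ n * Complex.exp (Complex.I * ξ * t) := by
  fun_prop

lemma hasDerivAt_Phi (n : ℕ) (t : ℝ) : HasDerivAt (Phi n) (Phi (n + 1) t) t := by
  refine (intervalIntegral.hasDerivAt_integral_of_dominated_loc_of_deriv_le
    (F := fun (t : ℝ) (ξ : ℝ) => (Complex.I * ξ) ^ n * Complex.exp (Complex.I * ξ * t))
    (F' := fun (t : ℝ) (ξ : ℝ) => (Complex.I * ξ) ^ (n + 1) * Complex.exp (Complex.I * ξ * t))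
    (s := univ) (bound := fun ξ => |ξ| ^ (n + 1)) univ_mem ?_ ?_ ?_ ?_ ?_ ?_).2
  · exact Eventually.of_forall fun t => (continuous_integrand n t).aestronglyMeasurable
  · exact (continuous_integrand n t).intervalIntegrable _ _
  · exact (continuous_integrand (n + 1) t).aestronglyMeasurable
  · exact Eventually.of_forall fun ξ _ t _ => (norm_integrand (n + 1) ξ t).le
  · exact (by fun_prop : Continuous fun ξ : ℝ => |ξ| ^ (n + 1)).intervalIntegrable _ _
  · refine Eventually.of_forall fun ξ _ t _ => ?_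
    have h1 : HasDerivAt (fun t : ℝ => Complex.I * ξ * (t : ℂ)) (Complex.I * ξ) t := by
      have := (Complex.ofRealCLM.hasDerivAt (x := t)).const_mul (Complex.I * ξ)
      simpa using this
    have h2 := (h1.cexp).const_mul ((Complex.I * ξ) ^ n)
    refine h2.congr_deriv ?_
    rw [pow_succ]
    ring

lemma parts (n : ℕ) (t : ℝ) : |t| * ‖Phi n t‖ ≤ 3 := by
  rcases n with _ | n
  · -- n = 0
    have h1 : ∀ ξ ∈ uIcc (0:ℝ) (1 / 2), HasDerivAt (fun ξ : ℝ => Complex.exp (Complex.I * ξ * t))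
        (Complex.I * t * ((Complex.I * ξ) ^ 0 * Complex.exp (Complex.I * ξ * t))) ξ := by
      intro ξ _
      have h2 : HasDerivAt (fun ξ : ℝ => Complex.I * (ξ : ℂ) * t) (Complex.I * t) ξ := by
        have := ((Complex.ofRealCLM.hasDerivAt (x := ξ)).const_mul (Complex.I)).mul_const (t : ℂ)
        simpa using this
      refine h2.cexp.congr_deriv ?_
      rw [pow_zero]
      ring
    have h3 := intervalIntegral.integral_eq_sub_of_hasDerivAt h1
      ((continuous_const.mul (continuous_integrand 0 t)).intervalIntegrable _ _)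
    rw [intervalIntegral.integral_const_mul] at h3
    have h4 : ‖Complex.I * t * Phi 0 t‖ ≤ 3 := by
      have h5 : Complex.I * t * Phi 0 t = Complex.exp (Complex.I * (1 / 2 : ℝ) * t) -
        Complex.exp (Complex.I * (0 : ℝ) * t) := h3
      rw [h5]
      refine (norm_sub_le _ _).trans ?_
      rw [norm_exp_aux, norm_exp_aux]
      norm_num
    rwa [norm_mul, norm_mul, Complex.norm_I, one_mul, Complex.norm_real, Real.norm_eq_abs] at h4
  · have h1 : ∀ ξ ∈ uIcc (0:ℝ) (1 / 2), HasDerivAt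
        (fun ξ : ℝ => (Complex.I * ξ) ^ (n + 1) * Complex.exp (Complex.I * ξ * t))
        (((n + 1 : ℕ) : ℂ) * Complex.I * ((Complex.I * ξ) ^ n * Complex.exp (Complex.I * ξ * t)) +
          Complex.I * t * ((Complex.I * ξ) ^ (n + 1) * Complex.exp (Complex.I * ξ * t))) ξ := by
      intro ξ _
      have h2 : HasDerivAt (fun ξ : ℝ => Complex.I * (ξ : ℂ) * t) (Complex.I * t) ξ := by
        have := ((Complex.ofRealCLM.hasDerivAt (x := ξ)).const_mul (Complex.I)).mul_const (t : ℂ)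
        simpa using this
      have h2' : HasDerivAt (fun ξ : ℝ => Complex.I * (ξ : ℂ)) Complex.I ξ := by
        have := ((Complex.ofRealCLM.hasDerivAt (x := ξ)).const_mul (Complex.I))
        simpa using this
      refine ((h2'.pow (n + 1)).mul h2.cexp).congr_deriv ?_
      simp only [Nat.add_sub_cancel, Pi.pow_apply]
      ring
    have i1 : IntervalIntegrable (fun ξ : ℝ => ((n + 1 : ℕ) : ℂ) * Complex.I *
        ((Complex.I * ξ) ^ n * Complex.exp (Complex.I * ξ * t))) MeasureTheory.volume 0 (1 / 2) :=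
      (by fun_prop : Continuous fun ξ : ℝ => ((n + 1 : ℕ) : ℂ) * Complex.I *
        ((Complex.I * ξ) ^ n * Complex.exp (Complex.I * ξ * t))).intervalIntegrable _ _
    have i2 : IntervalIntegrable (fun ξ : ℝ => Complex.I * t *
        ((Complex.I * ξ) ^ (n + 1) * Complex.exp (Complex.I * ξ * t)))
        MeasureTheory.volume 0 (1 / 2) :=
      (by fun_prop : Continuous fun ξ : ℝ => Complex.I * t *
        ((Complex.I * ξ) ^ (n + 1) * Complex.exp (Complex.I * ξ * t))).intervalIntegrable _ _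
    have h3 := intervalIntegral.integral_eq_sub_of_hasDerivAt h1 (i1.add i2)
    rw [intervalIntegral.integral_add i1 i2,
      intervalIntegral.integral_const_mul, intervalIntegral.integral_const_mul] at h3
    have h5 : ((n + 1 : ℕ) : ℂ) * Complex.I * Phi n t + Complex.I * t * Phi (n + 1) t =
        (Complex.I * (1 / 2 : ℝ)) ^ (n + 1) * Complex.exp (Complex.I * (1 / 2 : ℝ) * t) -
        (Complex.I * (0 : ℝ)) ^ (n + 1) * Complex.exp (Complex.I * (0 : ℝ) * t) := h3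
    have h6 : Complex.I * t * Phi (n + 1) t =
        (Complex.I * (1 / 2 : ℝ)) ^ (n + 1) * Complex.exp (Complex.I * (1 / 2 : ℝ) * t) -
        (Complex.I * (0 : ℝ)) ^ (n + 1) * Complex.exp (Complex.I * (0 : ℝ) * t) -
        ((n + 1 : ℕ) : ℂ) * Complex.I * Phi n t := by
      rw [← h5]; ring
    have h7 : ‖Complex.I * t * Phi (n + 1) t‖ ≤ 3 := by
      rw [h6]
      refine (norm_sub_le _ _).trans ?_
      have e1 : ‖(Complex.I * (1 / 2 : ℝ)) ^ (n + 1) * Complex.exp (Complex.I * (1 / 2 : ℝ) * t) -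
        (Complex.I * (0 : ℝ)) ^ (n + 1) * Complex.exp (Complex.I * (0 : ℝ) * t)‖ ≤ 1 + 1 := by
        refine (norm_sub_le _ _).trans (add_le_add ?_ ?_)
        · rw [norm_integrand]
          apply pow_le_one₀ (abs_nonneg _)
          rw [abs_of_pos] <;> norm_num
        · rw [norm_integrand]
          apply pow_le_one₀ (abs_nonneg _)
          simp
      have e2 : ‖((n + 1 : ℕ) : ℂ) * Complex.I * Phi n t‖ ≤ 1 := by
        rw [norm_mul, norm_mul, Complex.norm_I, mul_one, Complex.norm_natCast]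
        have h8 := norm_Phi_le n t
        have h9 : ((n + 1 : ℕ) : ℝ) ≤ 2 ^ (n + 1) := by
          exact_mod_cast (Nat.lt_two_pow_self (n := n + 1)).le
        calc ((n + 1 : ℕ) : ℝ) * ‖Phi n t‖ ≤ 2 ^ (n + 1) * (1 / 2) ^ (n + 1) := by
              apply mul_le_mul h9 h8 (norm_nonneg _) (by positivity)
          _ = 1 := by rw [← mul_pow]; norm_num
      linarith
    rwa [norm_mul, norm_mul, Complex.norm_I, one_mul, Complex.norm_real, Real.norm_eq_abs] at h7

/-- The element of the space given by the derivatives of `Re ∫₀^{1/2} e^{iξt} dξ`. -/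
noncomputable def F₀ : XX :=
  ⟨BoundedContinuousFunction.ofNormedAddCommGroup (fun p : ℕ × ℝ => (Phi p.1 p.2).re)
    (by
      rw [continuous_prod_of_discrete_left]
      intro n
      exact Complex.continuous_re.comp
        (continuous_iff_continuousAt.2 fun t => (hasDerivAt_Phi n t).continuousAt)) 1
    (fun p => by
      refine (Complex.abs_re_le_norm _).trans ((norm_Phi_le _ _).trans ?_)
      exact pow_le_one₀ (by norm_num) (by norm_num)), by
    refine ⟨fun n t => ?_, fun ε hε => ?_⟩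
    · have h1 := (hasDerivAt_Phi n t)
      have h2 := Complex.reCLM.hasFDerivAt.comp_hasDerivAt t h1
      exact h2
    · obtain ⟨R, hR⟩ := exists_nat_gt (3 / ε)
      have hR0 : (0:ℝ) < R := lt_trans (by positivity) hR
      have h3R : 3 / (R : ℝ) < ε := by
        rw [div_lt_iff₀ hR0]
        rw [div_lt_iff₀ hε] at hR
        linarith
      refine ⟨R, fun n t hnt => ?_⟩
      refine (Complex.abs_re_le_norm (Phi n t)).trans ?_
      rcases hnt with h | h
      · have h1 := norm_Phi_le n t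
        have h2 : ((1:ℝ) / 2) ^ (n + 1) ≤ 3 / (R : ℝ) := by
          rw [one_div, inv_pow, ← one_div]
          have h4 : (R : ℝ) ≤ 2 ^ (n + 1) := by
            have h5 : ((n + 1 : ℕ) : ℝ) ≤ 2 ^ (n + 1) := by
              exact_mod_cast (Nat.lt_two_pow_self (n := n + 1)).le
            have h6 : (R : ℝ) ≤ (n + 1 : ℕ) := by exact_mod_cast Nat.le_succ_of_le h
            linarith
          rw [div_le_div_iff₀ (by positivity) hR0]
          linarith
        linarith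
      · have h1 := parts n t
        have ht : 0 < |t| := lt_of_lt_of_le hR0 h
        have h2 : ‖Phi n t‖ ≤ 3 / |t| := by
          rw [le_div_iff₀ ht, mul_comm]
          exact h1
        have h4 : 3 / |t| ≤ 3 / (R : ℝ) := by
          apply div_le_div_of_nonneg_left (by norm_num) hR0 h
        linarith⟩

lemma F₀_apply (n : ℕ) (t : ℝ) : (F₀ : (ℕ × ℝ) →ᵇ ℝ) (n, t) = (Phi n t).re := rfl

lemma Phi_two : (Phi 2 0).re = - (1 / 24) := by
  have h1 : Phi 2 0 = ((- ∫ ξ in (0:ℝ)..(1 / 2), ξ ^ 2 : ℝ) : ℂ) := by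
    unfold Phi
    rw [← intervalIntegral.integral_neg, ← intervalIntegral.integral_ofReal]
    congr 1
    funext ξ
    simp only [Complex.ofReal_zero, mul_zero, Complex.exp_zero, mul_one, mul_pow, Complex.I_sq]
    push_cast
    ring
  rw [h1, Complex.ofReal_re, integral_pow]
  norm_num

lemma D_ne_zero : D ≠ 0 := by
  intro h
  have h1 : ((D (D F₀) : XX) : (ℕ × ℝ) →ᵇ ℝ) (0, 0) = 0 := by
    rw [h]; rfl
  have h2 : ((D (D F₀) : XX) : (ℕ × ℝ) →ᵇ ℝ) (0, 0) = (Phi 2 0).re := rfl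
  rw [h2, Phi_two] at h1
  norm_num at h1

lemma F₀_ne_zero : F₀ ≠ 0 := by
  intro h
  have h1 : D F₀ = 0 := by rw [h, map_zero]
  have h3 : ((D (D F₀) : XX) : (ℕ × ℝ) →ᵇ ℝ) (0, 0) = 0 := by
    rw [h1, map_zero]; rfl
  have h2 : ((D (D F₀) : XX) : (ℕ × ℝ) →ᵇ ℝ) (0, 0) = (Phi 2 0).re := rfl
  rw [h2, Phi_two] at h3
  norm_num at h3

lemma numRange_eq {E : Type} [NormedAddCommGroup E] [NormedSpace ℝ E] (T : E →L[ℝ] E)
    (h : numRange T ⊆ {0}) (y : E) (hy : y ≠ 0) : numRange T = {0} := by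
  refine Subset.antisymm h ?_
  rintro c hc
  have hx : ‖(‖y‖⁻¹ : ℝ) • y‖ = 1 := by
    rw [norm_smul, norm_inv, norm_norm]
    exact inv_mul_cancel₀ (norm_ne_zero_iff.2 hy)
  set x := (‖y‖⁻¹ : ℝ) • y
  have hx0 : ‖x‖ ≠ 0 := by rw [hx]; norm_num
  obtain ⟨f, hf, hfx⟩ := exists_dual_vector ℝ x hx0
  have h1 : f (T x) ∈ numRange T := ⟨x, f, hx, hf, by rw [hfx, hx]; rfl, rfl⟩
  have h2 := h h1
  rw [mem_singleton_iff] at h2 hc
  rw [hc, ← h2]
  exact h1

lemma plane_of_complex {E : Type} [NormedAddCommGroup E] [NormedSpace ℝ E] (Z : Submodule ℝ E)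
    (J : Z →ₗ[ℝ] Z) (hZ : Z ≠ ⊥)
    (hJ : ∀ (ρ : ℝ) (z : Z), ‖Real.cos ρ • z + Real.sin ρ • J z‖ = ‖z‖) :
    ∃ f g : E, ∀ a b : ℝ, ‖a • f + b • g‖ = √(a ^ 2 + b ^ 2) := by
  obtain ⟨z, hz, hz0⟩ := Submodule.exists_mem_ne_zero_of_ne_bot hZ
  obtain ⟨w, hw1⟩ : ∃ w : Z, ‖w‖ = 1 := by
    refine ⟨(‖z‖⁻¹ : ℝ) • ⟨z, hz⟩, ?_⟩
    rw [norm_smul, norm_inv, norm_norm]
    exact inv_mul_cancel₀ (norm_ne_zero_iff.2 hz0)
  refine ⟨(w : E), (J w : E), fun a b => ?_⟩
  -- polar coordinates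
  have h1 : ∀ c : ℂ, ‖(c.re • w + c.im • J w : Z)‖ = ‖c‖ := by
    intro c
    have h2 : c.re = ‖c‖ * Real.cos c.arg := by
      have := Complex.norm_mul_cos_arg c
      linarith
    have h3 : c.im = ‖c‖ * Real.sin c.arg := by
      have := Complex.norm_mul_sin_arg c
      linarith
    have h4 : (c.re • w + c.im • J w : Z) =
        ‖c‖ • (Real.cos c.arg • w + Real.sin c.arg • J w) := by
      rw [smul_add, smul_smul, smul_smul, ← h2, ← h3]
    rw [h4, norm_smul, hJ, hw1, norm_norm, mul_one]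
  have h5 := h1 ⟨a, b⟩
  have h6 : ‖(⟨a, b⟩ : ℂ)‖ = √(a ^ 2 + b ^ 2) := by
    rw [Complex.norm_def, Complex.normSq_mk]
    congr 1
    ring
  rw [h6] at h5
  exact h5

/-- There is a real Banach space `X` with a nonzero skew-hermitian operator `T` such that `X`
contains no isometric copy of the Euclidean plane, and no nonzero subspace of `X` carries a
norm-compatible complex structure. -/
theorem result : ∃ (X : Type) (_ : NormedAddCommGroup X) (_ : NormedSpace ℝ X)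
    (_ : CompleteSpace X) (T : X →L[ℝ] X),
    T ≠ 0 ∧ numRange T = {0} ∧ ¬ ContainsEuclideanPlane X ∧ ¬ HasComplexSubspace X := by
  refine ⟨XX, inferInstance, inferInstance, inferInstance, D, D_ne_zero,
    numRange_eq (E := XX) D numRange_D_subset F₀ F₀_ne_zero, ?_, ?_⟩
  · rintro ⟨j⟩
    refine no_plane (j (EuclideanSpace.single 0 1)) (j (EuclideanSpace.single 1 1)) fun a b => ?_
    rw [← map_smul, ← map_smul, ← map_add, j.norm_map, EuclideanSpace.norm_eq]
    simp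
  · rintro ⟨Z, J, hZ, -, hJ⟩
    obtain ⟨f, g, h⟩ := plane_of_complex (E := XX) Z J hZ hJ
    exact no_plane f g h

end Pool.Agent.Results.MP_981724_an.NoComplexSubspace
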